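import Pool.Agent.H32.MA.ZDefs

/-!
# Malle's conjecture for 8T8, 8T28, 8T29 and the dihedral group of order 16 (MP_a9b340): the
statement over a number field
-/

set_option autoImplicit false

namespace Pool.Agent.H32.MZ

open Pool.Agent.H32.MA (mInd bM)

/-- the number of extensions `L` of `k` inside the algebraic closure of degree `n`, whose Galois
group acting on the `n` embeddings is conjugate to `G`, with norm of the relative discriminant at
most `X`, that is `|disc L| ≤ X |disc k| ^ n` -/
noncomputable def NK (k : Type) [Field k] [NumberField k] {n : ℕ}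
    (G : Subgroup (Equiv.Perm (Fin n))) (X : ℝ) : ℕ :=
  {L : IntermediateField k (AlgebraicClosure k) | Module.finrank k L = n ∧
    (∃ e : (L →ₐ[k] AlgebraicClosure k) ≃ Fin n, ∀ π : Equiv.Perm (Fin n),
      π ∈ G ↔ ∃ σ : AlgebraicClosure k ≃ₐ[k] AlgebraicClosure k,
        ∀ φ : L →ₐ[k] AlgebraicClosure k, e (σ.toAlgHom.comp φ) = π (e φ)) ∧
    ∃ h : NumberField L, ((|@NumberField.discr L _ h| : ℤ) : ℝ) ≤
      X * ((|NumberField.discr k| : ℤ) : ℝ) ^ n}.ncard

/-- Malle's conjecture for `k` and `G` -/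
def MalleK (k : Type) [Field k] [NumberField k] {n : ℕ}
    (G : Subgroup (Equiv.Perm (Fin n))) : Prop :=
  ∃ c : ℝ, 0 < c ∧ Filter.Tendsto (fun X : ℝ => (NK k G X : ℝ) /
    (X ^ (1 / (mInd G : ℝ)) * Real.log X ^ (bM k G - 1))) Filter.atTop (nhds c)

/-- the transitive group `8T29`: the even elements of the Sylow 2-subgroup of `S_8` which
preserves the partition into `{0, 1, 2, 3}` and `{4, 5, 6, 7}`; here by generators -/
def T29 : Subgroup (Equiv.Perm (Fin 8)) :=
  Subgroup.closure {Equiv.swap 0 4 * Equiv.swap 1 5 * Equiv.swap 2 6 * Equiv.swap 3 7,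
    Equiv.swap 0 1 * Equiv.swap 2 3, Equiv.swap 1 3 * Equiv.swap 5 7}

/-- the transitive group `8T28`: the elements of the same Sylow 2-subgroup which are even if and
only if they map `{0, 1, 2, 3}` to itself; here by generators -/
def T28 : Subgroup (Equiv.Perm (Fin 8)) :=
  Subgroup.closure {Equiv.swap 1 3 *
      (Equiv.swap 0 4 * Equiv.swap 1 5 * Equiv.swap 2 6 * Equiv.swap 3 7),
    Equiv.swap 0 1 * Equiv.swap 2 3}

/-- the regular representation of the dihedral group of order 16, generated by
`i ↦ i + 2` and `i ↦ 1 - i` modulo 16 -/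
def D8 : Subgroup (Equiv.Perm (Fin 16)) :=
  Subgroup.closure {finRotate 16 ^ 2, Equiv.subLeft 1}

end Pool.Agent.H32.MZ
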