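import Pool.Agent.H32.MZ.Stm
import Pool.Agent.H32.MZ.T8K
import Pool.Agent.H32.MQ.MalFin
import Pool.Agent.D8.CEndD

/-!
# Malle's conjecture for 8T8, 8T28, 8T29 and the dihedral group of order 16 in its regular
representation, over every number field: assembly
-/

set_option autoImplicit false

namespace Pool.Agent.H32.MZ

open Pool.Agent.H32.MA (mInd bM T8 mInd_T8 T8_trans)

/-- the final statement from the parts -/
theorem q1_of (h8 : ∀ (k : Type) [Field k] [NumberField k], MalleK k T8)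
    (hD : ∀ (k : Type) [Field k] [NumberField k], Pool.Agent.D8.ScHom k) : Q1 := by
  obtain ⟨h28, h29, m28, m29, hk⟩ := Pool.Agent.H32.MQ.G.mal_final
  obtain ⟨t, m, -, -⟩ := Pool.Agent.D8.cGrpD ℚ
  exact ⟨⟨T8_trans, mInd_T8⟩, ⟨h28, m28⟩, ⟨h29, m29⟩, ⟨t, m⟩, fun k _ _ =>
    ⟨⟨bM_T8K k, h8 k⟩, ⟨(hk k).1, (hk k).2.2.1⟩, ⟨(hk k).2.1, (hk k).2.2.2⟩,
      ⟨(Pool.Agent.D8.cGrpD k).2.2.1, Pool.Agent.D8.cEndD k (hD k)⟩⟩⟩

end Pool.Agent.H32.MZ
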